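import Pool.Agent.H418.SQ.Base
import Pool.Graph.R_seed8.Results.MP_ed661f_ag.ExplicitThreshold

/-!
# Seshadri constants at all finite subsets of one sequence of points (Biran–Szemberg)

Let `X` be an integral projective surface over `ℂ` (arbitrary singularities are allowed) and `L = A - B`
a nef divisor on `X`. The starting result `ExplicitThreshold` gives `ε(n; X, L) = √(L² / n)` at `n` very
general points for all `n ≥ n₀`, separately for each `n`. We show that ONE sequence `z_0, z_1, z_2, ...`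
of points of `X` can be taken, every very general one: `ε(X, L; x_1, ..., x_n) = √(L² / n)` for all
`n ≥ n₀` and for all choices of `n` different points `x_1, ..., x_n` in the sequence, and the infimum is
not attained by any curve if `n L²` is not a square.
-/

set_option autoImplicit false

namespace Pool.Agent.Results.MP_ed661f_ag.SequencesOfPoints

open MvPolynomial
open Pool.Agent.Results.MP_ed661f_ag.ExplicitThreshold

variable {a b : ℕ}

/-- `z` is a sequence of points of the chart `x_i = 1`, `y_j = 1` of `X` and lies outside the countably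
many closed sets of sequences `H k = 0`; each of the polynomials `H k` involves only finitely many
points of the sequence -/
def IsVeryGeneralSequence (i : Fin (a + 1)) (j : Fin (b + 1)) (P : Ideal (Coord a b))
    (H : ℕ → MvPolynomial (ℕ × Index a b) ℂ) (z : ℕ → Index a b → ℂ) : Prop :=
  (∀ s, z s (Sum.inl i) = 1 ∧ z s (Sum.inr j) = 1 ∧ ∀ F ∈ P, eval (z s) F = 0) ∧
    ∀ k, eval (fun p => z p.1 p.2) (H k) ≠ 0

/-- **`ε(X, L; x_1, ..., x_n) = √(δ / n)` along sequences**, for points of the chart `x_i = y_j = 1`: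
there are countably many polynomials `H k` on sequences of points such that some sequence of points of
the chart has `H k ≠ 0` for all `k` (such sequences are called very general), and for every such
sequence `z` the points are distinct, and for all `n ≥ n₀` and any `n` different members
`z (σ 1), ..., z (σ n)` of the sequence, the Seshadri constant of `L` at these points is `√(δ / n)`,
and it is not attained by any curve `C` if `δ n` is not a square. -/
def SequenceEquality (i : Fin (a + 1)) (j : Fin (b + 1)) (P : Ideal (Coord a b)) (δ n₀ : ℕ) :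
    Prop :=
  ∃ H : ℕ → MvPolynomial (ℕ × Index a b) ℂ,
    (∃ z, IsVeryGeneralSequence i j P H z) ∧
    ∀ z, IsVeryGeneralSequence i j P H z → Function.Injective z ∧
      ∀ (n : ℕ) (σ : Fin n → ℕ), n₀ ≤ n → Function.Injective σ →
        IsGLB (seshadriRatios i j P (fun q => z (σ q))) (√((δ : ℝ) / n)) ∧
        (¬ IsSquare (δ * n) → √((δ : ℝ) / n) ∉ seshadriRatios i j P (fun q => z (σ q)))

theorem eval_rename_tuple {n : ℕ} (σ : Fin n → ℕ) (H : MvPolynomial (Fin n × Index a b) ℂ)
    (z : ℕ → Index a b → ℂ) :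
    eval (fun p => z p.1 p.2) (rename (fun p : Fin n × Index a b => (σ p.1, p.2)) H) =
      eval (fun p : Fin n × Index a b => z (σ p.1) p.2) H := by
  rw [eval_rename]
  rfl

theorem exists_inj (s t n : ℕ) (hst : s ≠ t) (hn : 2 ≤ n) :
    ∃ σ : Fin n → ℕ, Function.Injective σ ∧ (∃ q, σ q = s) ∧ ∃ q, σ q = t := by
  classical
  refine ⟨fun q => if (q : ℕ) = 0 then s else if (q : ℕ) = 1 then t else s + t + q, ?_,
    ⟨⟨0, by omega⟩, by simp⟩, ⟨⟨1, by omega⟩, by simp⟩⟩
  intro q q' h
  apply Fin.ext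
  dsimp only at h
  split_ifs at h <;> omega

theorem sequence_of {P : Ideal (Coord a b)} (hprime : P.IsPrime) (hbi : IsBihomogeneous P)
    {i : Fin (a + 1)} {j : Fin (b + 1)} (hi : xVar i ∉ P) (hj : yVar j ∉ P) {δ n₀ : ℕ}
    (h : ∀ n, n₀ ≤ n → SeshadriEquality i j P δ n) : SequenceEquality i j P δ n₀ := by
  classical
  have hJ : (Pool.Agent.TH306.N4.chart i j P).IsPrime :=
    Pool.Agent.TH611.M5.chart_prime hprime hbi hi hj
  obtain ⟨x₀, hx₀, -⟩ := Pool.Agent.TH611.M5.exists_point_countable (ι := Empty)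
    (Pool.Agent.TH306.N4.chart i j P) hJ (fun k => k.elim) (fun k => k.elim)
  choose! H hH using h
  let ι : Type := (Σ n : {n : ℕ // n₀ ≤ n}, {σ : Fin n.1 → ℕ // Function.Injective σ}) × ℕ
  let G : ι → MvPolynomial (ℕ × Index a b) ℂ := fun c =>
    rename (fun p : Fin c.1.1.1 × Index a b => (c.1.2.1 p.1, p.2)) (H c.1.1.1 c.2)
  have hex : ∃ z : ℕ → Index a b → ℂ,
      (∀ q, ∀ g ∈ Pool.Agent.TH306.N4.chart i j P, eval (z q) g = 0) ∧
      ∀ c, eval (fun p => z p.1 p.2) (G c) ≠ 0 := by
    refine Pool.Agent.H418.SQ.exists_sequence_countable _ hJ G fun c => ?_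
    obtain ⟨⟨⟨n, hn⟩, ⟨σ, hσ⟩⟩, k⟩ := c
    obtain ⟨w, hw, hwH⟩ := (hH n hn).1
    have hw' := Pool.Agent.TH611.M5.tuple_iff.1 hw
    refine ⟨Function.extend σ w (fun _ => x₀), fun q g hg => ?_, ?_⟩
    · by_cases hq : ∃ q', σ q' = q
      · obtain ⟨q', rfl⟩ := hq
        rw [hσ.extend_apply]
        exact hw' q' g hg
      · rw [Function.extend_apply' _ _ _ hq]
        exact hx₀ g hg
    · show eval (fun p => Function.extend σ w (fun _ => x₀) p.1 p.2)
        (rename (fun p : Fin n × Index a b => (σ p.1, p.2)) (H n k)) ≠ 0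
      rw [eval_rename_tuple]
      have h1 : (fun p : Fin n × Index a b => Function.extend σ w (fun _ => x₀) (σ p.1) p.2) =
          fun p => w p.1 p.2 := by
        funext p
        rw [hσ.extend_apply]
      rw [h1]
      exact hwH k
  have hne : Nonempty ι := ⟨(⟨⟨n₀, le_rfl⟩, ⟨fun q => q, Fin.val_injective⟩⟩, 0)⟩
  obtain ⟨e, he⟩ := exists_surjective_nat ι
  refine ⟨fun k => G (e k), ?_, ?_⟩
  · obtain ⟨z, hz, hzG⟩ := hex
    refine ⟨z, fun s => ?_, fun k => hzG (e k)⟩
    exact (Pool.Agent.TH611.M5.tuple_iff (n := 1) (w := fun _ => z s)).2 (fun _ => hz s) 0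
  · rintro z ⟨hz, hzG⟩
    have key : ∀ (n : ℕ) (σ : Fin n → ℕ), n₀ ≤ n → Function.Injective σ →
        IsVeryGeneral i j P (H n) (fun q => z (σ q)) := by
      intro n σ hn hσ
      refine ⟨fun q => hz (σ q), fun k => ?_⟩
      obtain ⟨l, hl⟩ := he (⟨⟨n, hn⟩, ⟨σ, hσ⟩⟩, k)
      have h1 : eval (fun p => z p.1 p.2) (G (e l)) ≠ 0 := hzG l
      rw [hl] at h1
      have h2 : eval (fun p => z p.1 p.2)
          (rename (fun p : Fin n × Index a b => (σ p.1, p.2)) (H n k)) ≠ 0 := h1
      rw [eval_rename_tuple] at h2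
      exact h2
    refine ⟨fun s t hst => ?_, fun n σ hn hσ => ((hH n hn).2 _ (key n σ hn hσ)).2⟩
    by_contra hne
    obtain ⟨σ, hσ, ⟨q, hq⟩, ⟨q', hq'⟩⟩ := exists_inj s t (max n₀ 2) hne (le_max_right _ _)
    have h1 := ((hH _ (le_max_left n₀ 2)).2 _ (key _ σ (le_max_left n₀ 2) hσ)).1
    have h2 : q = q' := h1 (by
      show z (σ q) = z (σ q')
      rw [hq, hq', hst])
    apply hne
    rw [← hq, ← hq', h2]

/-- **The Biran–Szemberg equality for all nef divisors, at all finite subsets of one sequence of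
points, with an explicit threshold.** Let `X ⊂ P^a × P^b` be an integral surface such that `L = A - B`
is nef. Then `L² = α - 2 β + γ ≥ 0`, some `x_i` and some `y_j` do not vanish on `X`, and for every chart
`x_i = y_j = 1` of `X`:
* if `L² = 0`, then the Seshadri constant of `L` is `0` at any `n ≥ 1` different members of every very
  general sequence of points;
* if `L² > 0` and `|k L|` contains a good pencil, let `n₀ ≥ 4 k² L²` (and `n₀ ≥ 9` if `k² L² = 1`). Then
  the Seshadri constant of `L` is `√(L² / n)` at any `n ≥ n₀` different members of every very general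
  sequence of points, and it is not attained by any curve if `n L²` is not a square;
* if `L² > 0` and `X` is normal, there is `k ≥ 1` such that `|k L|` contains a good pencil;
* in the first two cases `ε(n; X, L) = √(L² / n)` for all `n ≥ n₀`, the value at `n` very general
  points. -/
theorem result {a b : ℕ} (P : Ideal (Coord a b)) (α β γ : ℕ) (hX : IsSurface P α β γ)
    (hnef : IsNef P) :
    2 * β ≤ α + γ ∧ (∃ i j, xVar i ∉ P ∧ yVar j ∉ P) ∧
    ∀ i j, xVar i ∉ P → yVar j ∉ P →
      (2 * β = α + γ → SequenceEquality i j P 0 1 ∧ ∀ n, 1 ≤ n → SeshadriEquality i j P 0 n) ∧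
      (∃ (K : Type) (_ : Field K) (_ : Algebra ℂ K) (π : Coord a b →ₐ[ℂ] K),
        IsFunctionField i j P π) ∧
      ∀ (K : Type) [Field K] [Algebra ℂ K] (π : Coord a b →ₐ[ℂ] K), IsFunctionField i j P π →
        2 * β < α + γ →
        (IsNormal P → ∃ (k : ℕ) (g₁ g₂ : K), IsGoodPencil π k g₁ g₂) ∧
        ∀ (k : ℕ) (g₁ g₂ : K), IsGoodPencil π k g₁ g₂ → ∀ n₀ : ℕ,
          4 * (k ^ 2 * (α + γ - 2 * β)) ≤ n₀ → (k ^ 2 * (α + γ - 2 * β) = 1 → 9 ≤ n₀) →
          SequenceEquality i j P (α + γ - 2 * β) n₀ ∧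
            ∀ n, n₀ ≤ n → SeshadriEquality i j P (α + γ - 2 * β) n := by
  obtain ⟨h0, h1, h2⟩ := Pool.Agent.Results.MP_ed661f_ag.ExplicitThreshold.result P α β γ hX hnef
  refine ⟨h0, h1, fun i j hi hj => ?_⟩
  obtain ⟨h3, h4, h5⟩ := h2 i j hi hj
  refine ⟨fun hL => ⟨sequence_of hX.prime hX.bihomogeneous hi hj (h3 hL), h3 hL⟩, h4, ?_⟩
  intro K _ _ π hπ hL
  obtain ⟨h6, h7⟩ := h5 K π hπ hL
  refine ⟨h6, fun k g₁ g₂ hP n₀ hn h9 => ?_⟩
  have h8 : ∀ n, n₀ ≤ n → SeshadriEquality i j P (α + γ - 2 * β) n := fun n hn' =>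
    h7 k g₁ g₂ hP n (hn.trans hn') (fun h => (h9 h).trans hn')
  exact ⟨sequence_of hX.prime hX.bihomogeneous hi hj h8, h8⟩

end Pool.Agent.Results.MP_ed661f_ag.SequencesOfPoints
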